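import Pool.Agent.Lib.MP_3d41d4_an.Main
import Pool.Agent.Lib.MP_3d41d4_an.CKMain
import Pool.Agent.Lib.MP_3d41d4_an.EMain

open MeasureTheory Set Filter Topology Real
open Pool.Agent.Lib.MP_3d41d4_an

namespace Pool.Agent.Results.MP_3d41d4_an.Full

/-- Vanishing viscosity limit for every analytic vortex-sheet datum. For each viscosity the
Navier-Stokes equations have a global classical solution starting from the sheet measure, unique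
in its class on every interval `(0, T₁)`; the Birkhoff-Rott equations have a solution with this
datum that is bounded in some `X_ρ` on some `[0, T]`; and for every such solution the vorticities
converge weakly to its sheet measure at each time of some `(0, T']`. -/
theorem result (ρ₀ M₀ : ℝ) (hρ₀ : 0 < ρ₀) (φ₀ γ₀ : ℝ → ℝ)
    (hφ₀ : InX ρ₀ M₀ φ₀) (hγ₀ : InX ρ₀ M₀ γ₀) :
    ∃ ω u v : ℝ → ℝ → ℝ → ℝ → ℝ,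
      (∀ ν > 0, ∀ T₁ > 0, IsNS ν T₁ φ₀ γ₀ (ω ν) (u ν) (v ν) ∧
        ∀ ω' u' v', IsNS ν T₁ φ₀ γ₀ ω' u' v' → ∀ t ∈ Ioo 0 T₁, ω' t = ω ν t) ∧
      (∃ T > 0, ∃ ρ > 0, ∃ (M : ℝ) (φ γ : ℝ → ℝ → ℝ), φ 0 = φ₀ ∧ γ 0 = γ₀ ∧ SolvesBR T φ γ ∧
        ∀ t ∈ Icc 0 T, InX ρ M (φ t) ∧ InX ρ M (γ t)) ∧
      ∀ T > 0, ∀ ρ > 0, ∀ (M : ℝ) (φ γ : ℝ → ℝ → ℝ), φ 0 = φ₀ → γ 0 = γ₀ → SolvesBR T φ γ →
        (∀ t ∈ Icc 0 T, InX ρ M (φ t) ∧ InX ρ M (γ t)) →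
        ∃ T' ∈ Ioo 0 T, ∀ t ∈ Ioc 0 T', ∀ η, IsTest η →
          Tendsto (fun ν => ∫ p in cyl, η p.1 p.2 * ω ν t p.1 p.2) (𝓝[>] 0)
            (𝓝 (∫ x in (0 : ℝ)..(2 * π), η x (φ t x) * γ t x)) := by
  have hex : ∀ ν : ℝ, ∃ ω u v : ℝ → ℝ → ℝ → ℝ, 0 < ν → ∀ T > 0, IsNS ν T φ₀ γ₀ ω u v ∧
      ∀ ω' u' v', IsNS ν T φ₀ γ₀ ω' u' v' → ∀ t ∈ Ioo 0 T, ω' t = ω t := fun ν => by
    by_cases hν : 0 < ν
    · obtain ⟨ω, u, v, h⟩ := ns_exists_unique hν hφ₀.1 hφ₀.2.1 hγ₀.1 hγ₀.2.1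
      exact ⟨ω, u, v, fun _ => h⟩
    · exact ⟨0, 0, 0, fun h => absurd h hν⟩
  choose ω u v hs using hex
  obtain ⟨T, hT, ρ, hρ, M, φ, γ, h0φ, h0γ, hX, hBR⟩ := exists_BR hρ₀ hφ₀ hγ₀
  refine ⟨ω, u, v, fun ν hν => hs ν hν, ⟨T, hT, ρ, hρ, M, φ, γ, h0φ, h0γ, hBR, hX⟩,
    fun T hT ρ hρ M φ γ h0φ h0γ hBR hX => ?_⟩
  obtain ⟨T', hT'0, hT'T, hmain⟩ := main_bounded hT hρ hX hBR
  refine ⟨T', ⟨hT'0, hT'T⟩, hmain (T' + 1) (lt_add_one _) ω u v fun ν hν => ?_⟩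
  rw [h0φ, h0γ]
  exact (hs ν hν (T' + 1) (by linarith)).1

end Pool.Agent.Results.MP_3d41d4_an.Full
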